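import Mathlib

/-!
# The parabolic complex Monge-Ampère flow on bounded domains: definitions
-/

set_option autoImplicit false

open Set Filter Topology Matrix
open scoped ContDiff ComplexOrder

noncomputable section

namespace Pool.Agent.Helper696_MA

variable {n : ℕ}

/-- `ℂⁿ` with its Hermitian norm. -/
abbrev Cn (n : ℕ) : Type := EuclideanSpace ℂ (Fin n)

/-- The `j`-th standard basis vector of `ℂⁿ`. -/
def e (j : Fin n) : Cn n := EuclideanSpace.single j (1 : ℂ)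

/-- The second real derivative `D²f(z)(v,w)`. -/
def D2 (f : Cn n → ℝ) (z v w : Cn n) : ℝ := fderiv ℝ (fderiv ℝ f) z v w

/-- The complex Hessian `(∂²f/∂z_i∂z̄_j)(z)`, with `∂/∂z_i = (∂/∂x_i - i ∂/∂y_i)/2` and
`∂/∂z̄_j = (∂/∂x_j + i ∂/∂y_j)/2`. -/
def cHess (f : Cn n → ℝ) (z : Cn n) : Matrix (Fin n) (Fin n) ℂ :=
  Matrix.of fun i j =>
    (1 / 4 : ℂ) *
      (((D2 f z (e i) (e j) + D2 f z (Complex.I • e i) (Complex.I • e j) : ℝ) : ℂ)
        + Complex.I *
          ((D2 f z (e i) (Complex.I • e j) - D2 f z (Complex.I • e i) (e j) : ℝ) : ℂ))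

/-- `u : U → [-∞,∞)` is plurisubharmonic on the open set `U`: it is upper semicontinuous and its
value at the centre of every closed analytic disc `{z + ζ w : |ζ| ≤ 1} ⊆ U` is at most its mean
over the boundary circle. (The mean of an upper semicontinuous function over a circle is the
infimum of the means of the continuous functions above it.) -/
structure IsPSH (U : Set (Cn n)) (u : Cn n → EReal) : Prop where
  isOpen : IsOpen U
  lt_top : ∀ z ∈ U, u z < ⊤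
  usc : UpperSemicontinuousOn u U
  mean : ∀ z w : Cn n, (∀ ζ : ℂ, ‖ζ‖ ≤ 1 → z + ζ • w ∈ U) →
    ∀ g : ℂ → ℝ, Continuous g → (∀ ζ : ℂ, ‖ζ‖ = 1 → u (z + ζ • w) ≤ ((g ζ : ℝ) : EReal)) →
      u z ≤ ((Real.circleAverage g 0 1 : ℝ) : EReal)

/-- Bounded strictly pseudoconvex domains with smooth boundary, given by a smooth strictly
plurisubharmonic defining function near the closure. -/
structure IsSPCDomain (Ω : Set (Cn n)) : Prop where
  isOpen : IsOpen Ω
  connected : IsConnected Ω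
  bounded : Bornology.IsBounded Ω
  defining : ∃ (U : Set (Cn n)) (r : Cn n → ℝ), IsOpen U ∧ closure Ω ⊆ U ∧
    ContDiffOn ℝ ∞ r U ∧ (∀ z ∈ U, (cHess r z).PosDef) ∧ Ω = {z | z ∈ U ∧ r z < 0} ∧
    ∀ z ∈ frontier Ω, r z = 0 ∧ fderiv ℝ r z ≠ 0

/-- The data of the problem: a bounded domain `Ω`, `T > 0`, a plurisubharmonic function `u₀` on an
open set `U ⊇ closure Ω`, and `φ ∈ C^∞(closure Ω × [0,T))` with `φ(z,t) = u₀(z)` for `z ∈ ∂Ω`. -/
structure IsData (Ω U : Set (Cn n)) (T : ℝ) (u₀ : Cn n → EReal) (φ : Cn n × ℝ → ℝ) : Prop where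
  pos : 0 < T
  sub : closure Ω ⊆ U
  psh : IsPSH U u₀
  smooth : ContDiffOn ℝ ∞ φ (closure Ω ×ˢ Ico 0 T)
  compat : ∀ z ∈ frontier Ω, ∀ t ∈ Ico (0 : ℝ) T, ((φ (z, t) : ℝ) : EReal) = u₀ z

/-- `u` is a solution of the flow with initial datum `u₀` and boundary data `φ` (the conditions
1-4 of the problem). -/
structure IsSolution (Ω : Set (Cn n)) (T : ℝ) (u₀ : Cn n → EReal) (φ : Cn n × ℝ → ℝ)
    (u : Cn n × ℝ → ℝ) : Prop where
  smooth : ContDiffOn ℝ ∞ u (closure Ω ×ˢ Ioo 0 T)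
  spsh : ∀ t ∈ Ioo (0 : ℝ) T, ∀ z ∈ Ω, (cHess (fun w => u (w, t)) z).PosDef
  flow : ∀ t ∈ Ioo (0 : ℝ) T, ∀ z ∈ Ω,
    deriv (fun s => u (z, s)) t = Real.log ((cHess (fun w => u (w, t)) z).det).re
  bdry : ∀ t ∈ Ioo (0 : ℝ) T, ∀ z ∈ frontier Ω, u (z, t) = φ (z, t)
  init : ∀ z ∈ closure Ω, Tendsto (fun t => ((u (z, t) : ℝ) : EReal)) (𝓝[>] 0) (𝓝 (u₀ z))

/-- The function `z ↦ log |z - a|`, with value `-∞` at `a`. -/
def logDist (a : Cn n) (z : Cn n) : EReal :=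
  open Classical in if z = a then ⊥ else ((Real.log ‖z - a‖ : ℝ) : EReal)

/-- The Levi form of `f` at `z` in the direction `v`: `(D²f(v,v) + D²f(iv,iv))/4`. -/
def levi (f : Cn n → ℝ) (z v : Cn n) : ℝ :=
  (1 / 4) * (D2 f z v v + D2 f z (Complex.I • v) (Complex.I • v))

end Pool.Agent.Helper696_MA
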