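import Mathlib
import Pool.Agent.Helper696_MA.Defs

set_option autoImplicit false

open Set Filter Topology Matrix
open scoped ContDiff ComplexOrder

noncomputable section

namespace Pool.Agent.Helper696_MA

variable {n : ℕ}

theorem D2_symm {f : Cn n → ℝ} {z : Cn n} (hf : ContDiffAt ℝ 2 f z) (v w : Cn n) :
    D2 f z v w = D2 f z w v := by
  have h := hf.isSymmSndFDerivAt (by simp [minSmoothness_of_isRCLikeNormedField])
  exact h v w

theorem A_ev {f : Cn n → ℝ} {z : Cn n} (hf : ContDiffAt ℝ 2 f z) :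
    ∀ᶠ y in 𝓝 z, DifferentiableAt ℝ f y := by
  filter_upwards [hf.eventually (by simp)] with y hy
  exact hy.differentiableAt (by simp)

theorem A_diff {f : Cn n → ℝ} {z : Cn n} (hf : ContDiffAt ℝ 2 f z) :
    DifferentiableAt ℝ (fderiv ℝ f) z := by
  have h : ContDiffAt ℝ 1 (fderiv ℝ f) z := hf.fderiv_right (by norm_num)
  exact h.differentiableAt (by simp)

theorem D2_sub {f g : Cn n → ℝ} {z : Cn n} (hf : ContDiffAt ℝ 2 f z) (hg : ContDiffAt ℝ 2 g z)
    (v w : Cn n) : D2 (fun x => f x - g x) z v w = D2 f z v w - D2 g z v w := by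
  have h : fderiv ℝ (fun x => f x - g x) =ᶠ[𝓝 z] fun y => fderiv ℝ f y - fderiv ℝ g y := by
    filter_upwards [A_ev hf, A_ev hg] with y h1 h2
    exact fderiv_fun_sub h1 h2
  unfold D2
  rw [h.fderiv_eq, fderiv_fun_sub (A_diff hf) (A_diff hg)]
  rfl

theorem D2_add {f g : Cn n → ℝ} {z : Cn n} (hf : ContDiffAt ℝ 2 f z) (hg : ContDiffAt ℝ 2 g z)
    (v w : Cn n) : D2 (fun x => f x + g x) z v w = D2 f z v w + D2 g z v w := by
  have h : fderiv ℝ (fun x => f x + g x) =ᶠ[𝓝 z] fun y => fderiv ℝ f y + fderiv ℝ g y := by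
    filter_upwards [A_ev hf, A_ev hg] with y h1 h2
    exact fderiv_fun_add h1 h2
  unfold D2
  rw [h.fderiv_eq, fderiv_fun_add (A_diff hf) (A_diff hg)]
  rfl

theorem D2_nonpos_of_isLocalMax {f : Cn n → ℝ} {z : Cn n} (hf : ContDiffAt ℝ 2 f z)
    (h : IsLocalMax f z) (v : Cn n) : D2 f z v v ≤ 0 := by
  by_contra hn
  push Not at hn
  let L : ℝ → Cn n := fun s => z + s • v
  have hLd : ∀ s, HasDerivAt L v s := by
    intro s
    have := ((hasDerivAt_id s).smul_const v).const_add z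
    simpa [L] using this
  have hL0 : L 0 = z := by simp [L]
  have hLc : Tendsto L (𝓝 0) (𝓝 z) := by
    have := (hLd 0).continuousAt.tendsto
    rwa [hL0] at this
  let g : ℝ → ℝ := fun s => f (L s)
  have hg1 : ∀ᶠ s in 𝓝 (0 : ℝ), deriv g s = fderiv ℝ f (L s) v := by
    filter_upwards [hLc.eventually (A_ev hf)] with s hs
    exact (hs.hasFDerivAt.comp_hasDerivAt s (hLd s)).deriv
  have hg2 : deriv (deriv g) 0 = D2 f z v v := by
    have e1 : deriv g =ᶠ[𝓝 0] fun s => fderiv ℝ f (L s) v := hg1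
    rw [e1.deriv_eq]
    have hd : HasFDerivAt (fderiv ℝ f) (fderiv ℝ (fderiv ℝ f) z) (L 0) := by
      rw [hL0]
      exact (A_diff hf).hasFDerivAt
    have h2 : HasDerivAt (fun s => fderiv ℝ f (L s)) (fderiv ℝ (fderiv ℝ f) z v) 0 :=
      hd.comp_hasDerivAt 0 (hLd 0)
    have h3 := h2.clm_apply (hasDerivAt_const (0 : ℝ) v)
    rw [h3.deriv]
    simp [D2]
  have hmax : IsLocalMax g 0 := by
    have h' : IsLocalMax f (L 0) := by rw [hL0]; exact h
    exact h'.comp_continuous (f := f) (g := L) (hLd 0).continuousAt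
  have hmin : IsLocalMin g 0 := by
    apply isLocalMin_of_deriv_deriv_pos
    · rw [hg2]; exact hn
    · exact hmax.deriv_eq_zero
    · have hd : DifferentiableAt ℝ f (L 0) := by
        rw [hL0]
        exact (A_ev hf).self_of_nhds
      exact (hd.hasFDerivAt.comp_hasDerivAt (0 : ℝ) (hLd 0)).continuousAt
  have hconst : g =ᶠ[𝓝 0] fun _ => g 0 := by
    filter_upwards [hmax, hmin] with s h1 h2
    exact le_antisymm h1 h2
  have hz : deriv (deriv g) 0 = 0 := by
    have e1 : deriv g =ᶠ[𝓝 0] deriv (fun _ => g 0) := hconst.deriv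
    rw [e1.deriv_eq]
    simp
  rw [hg2] at hz
  linarith

theorem A_cHess_apply (f : Cn n → ℝ) (z : Cn n) (i j : Fin n) : cHess f z i j =
    (1 / 4 : ℂ) *
      (((D2 f z (e i) (e j) + D2 f z (Complex.I • e i) (Complex.I • e j) : ℝ) : ℂ)
        + Complex.I *
          ((D2 f z (e i) (Complex.I • e j) - D2 f z (Complex.I • e i) (e j) : ℝ) : ℂ)) := rfl

theorem cHess_isHermitian {f : Cn n → ℝ} {z : Cn n} (hf : ContDiffAt ℝ 2 f z) :
    (cHess f z).IsHermitian := by
  ext i j
  rw [Matrix.conjTranspose_apply, A_cHess_apply, A_cHess_apply]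
  rw [D2_symm hf (e j) (e i), D2_symm hf (Complex.I • e j) (Complex.I • e i),
    D2_symm hf (e j) (Complex.I • e i), D2_symm hf (Complex.I • e j) (e i)]
  apply Complex.ext <;> simp

theorem A_decomp (v : Cn n) : v = ∑ j, ((v j).re • e j + (v j).im • (Complex.I • e j)) := by
  ext i
  simp only [WithLp.ofLp_sum, Finset.sum_apply, WithLp.ofLp_add, WithLp.ofLp_smul, Pi.add_apply,
    Pi.smul_apply, e, PiLp.ofLp_single]
  simp [Pi.single_apply, Finset.sum_add_distrib]

theorem A_bilin (L : Cn n →L[ℝ] Cn n →L[ℝ] ℝ) (a b c d : Fin n → ℝ) (u w x y : Fin n → Cn n) :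
    L (∑ i, (a i • u i + b i • w i)) (∑ j, (c j • x j + d j • y j)) =
      ∑ i, ∑ j, (a i * c j * L (u i) (x j) + a i * d j * L (u i) (y j) +
        b i * c j * L (w i) (x j) + b i * d j * L (w i) (y j)) := by
  rw [map_sum L, _root_.sum_apply]
  refine Finset.sum_congr rfl fun i _ => ?_
  rw [map_sum]
  refine Finset.sum_congr rfl fun j _ => ?_
  simp only [map_add, map_smul, ContinuousLinearMap.add_apply, ContinuousLinearMap.smul_apply,
    smul_eq_mul]
  ring

theorem A_levi (f : Cn n → ℝ) (z v : Cn n) : levi f z v = (1 / 4) * ∑ i, ∑ j,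
    (((v i).re * (v j).re + (v i).im * (v j).im) *
      (D2 f z (e i) (e j) + D2 f z (Complex.I • e i) (Complex.I • e j)) +
     ((v i).re * (v j).im - (v i).im * (v j).re) *
      (D2 f z (e i) (Complex.I • e j) - D2 f z (Complex.I • e i) (e j))) := by
  have h1 : D2 f z v v = ∑ i, ∑ j, ((v i).re * (v j).re * D2 f z (e i) (e j) +
      (v i).re * (v j).im * D2 f z (e i) (Complex.I • e j) +
        (v i).im * (v j).re * D2 f z (Complex.I • e i) (e j) +
        (v i).im * (v j).im * D2 f z (Complex.I • e i) (Complex.I • e j)) := by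
    have := A_bilin (fderiv ℝ (fderiv ℝ f) z) (fun i => (v i).re) (fun i => (v i).im)
      (fun i => (v i).re) (fun i => (v i).im) e (fun i => Complex.I • e i) e
      (fun i => Complex.I • e i)
    rw [← A_decomp v] at this
    exact this
  have h2 : Complex.I • v = ∑ j, ((v j).re • (Complex.I • e j) + (-(v j).im) • e j) := by
    conv_lhs => rw [A_decomp v]
    rw [Finset.smul_sum]
    refine Finset.sum_congr rfl fun j _ => ?_
    rw [smul_add, smul_comm, smul_comm Complex.I ((v j).im), smul_smul Complex.I Complex.I,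
      Complex.I_mul_I, neg_smul, one_smul, smul_neg, neg_smul]
  have h3 : D2 f z (Complex.I • v) (Complex.I • v) =
      ∑ i, ∑ j, ((v i).re * (v j).re * D2 f z (Complex.I • e i) (Complex.I • e j) +
      (v i).re * (-(v j).im) * D2 f z (Complex.I • e i) (e j) +
        (-(v i).im) * (v j).re * D2 f z (e i) (Complex.I • e j) +
        (-(v i).im) * (-(v j).im) * D2 f z (e i) (e j)) := by
    have := A_bilin (fderiv ℝ (fderiv ℝ f) z) (fun i => (v i).re) (fun i => -(v i).im)
      (fun i => (v i).re) (fun i => -(v i).im) (fun i => Complex.I • e i) e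
      (fun i => Complex.I • e i) e
    rw [← h2] at this
    exact this
  unfold levi
  rw [h1, h3, ← Finset.sum_add_distrib]
  congr 1
  refine Finset.sum_congr rfl fun i _ => ?_
  rw [← Finset.sum_add_distrib]
  refine Finset.sum_congr rfl fun j _ => ?_
  ring

theorem cHess_form {f : Cn n → ℝ} {z : Cn n} (hf : ContDiffAt ℝ 2 f z) (x : Fin n → ℂ) :
    star x ⬝ᵥ (cHess f z).mulVec x = ((levi f z (WithLp.toLp 2 (star x)) : ℝ) : ℂ) := by
  apply Complex.ext
  · rw [Complex.ofReal_re, A_levi, dotProduct, Complex.re_sum, Finset.mul_sum]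
    refine Finset.sum_congr rfl fun i _ => ?_
    rw [mulVec, dotProduct, Finset.mul_sum, Finset.mul_sum, Complex.re_sum]
    refine Finset.sum_congr rfl fun j _ => ?_
    rw [A_cHess_apply]
    simp
    ring
  · have := (cHess_isHermitian hf).im_star_dotProduct_mulVec_self x
    rw [Complex.ofReal_im]
    exact this

theorem A_form' {f : Cn n → ℝ} {z : Cn n} (hf : ContDiffAt ℝ 2 f z) (v : Cn n) :
    ((levi f z v : ℝ) : ℂ) = star (star v.ofLp) ⬝ᵥ (cHess f z).mulVec (star v.ofLp) := by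
  rw [cHess_form hf, star_star]

theorem levi_nonneg_of_posDef {f : Cn n → ℝ} {z : Cn n} (hf : ContDiffAt ℝ 2 f z)
    (h : (cHess f z).PosDef) (v : Cn n) : 0 ≤ levi f z v := by
  have h1 := h.posSemidef.dotProduct_mulVec_nonneg (star v.ofLp)
  rw [← A_form' hf v] at h1
  exact_mod_cast h1

theorem posSemidef_sub {f g : Cn n → ℝ} {z : Cn n} (hf : ContDiffAt ℝ 2 f z)
    (hg : ContDiffAt ℝ 2 g z) (h : ∀ v, levi f z v ≤ levi g z v) :
    (cHess g z - cHess f z).PosSemidef := by
  refine .of_dotProduct_mulVec_nonneg ((cHess_isHermitian hg).sub (cHess_isHermitian hf)) ?_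
  intro x
  rw [sub_mulVec, dotProduct_sub, cHess_form hf, cHess_form hg, ← Complex.ofReal_sub]
  exact_mod_cast sub_nonneg.2 (h _)

theorem posSemidef_sub_smul_one {f : Cn n → ℝ} {z : Cn n} (hf : ContDiffAt ℝ 2 f z) {τ : ℝ}
    (h : ∀ v : Cn n, τ * ‖v‖ ^ 2 ≤ levi f z v) :
    (cHess f z - ((τ : ℝ) : ℂ) • (1 : Matrix (Fin n) (Fin n) ℂ)).PosSemidef := by
  have hH : (((τ : ℝ) : ℂ) • (1 : Matrix (Fin n) (Fin n) ℂ)).IsHermitian := by
    rw [Matrix.IsHermitian, conjTranspose_smul, conjTranspose_one]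
    simp
  refine .of_dotProduct_mulVec_nonneg ((cHess_isHermitian hf).sub hH) ?_
  intro x
  have h1 : star x ⬝ᵥ ((((τ : ℝ) : ℂ) • (1 : Matrix (Fin n) (Fin n) ℂ)).mulVec x) =
      ((τ * ‖(WithLp.toLp 2 (star x) : Cn n)‖ ^ 2 : ℝ) : ℂ) := by
    rw [smul_mulVec, one_mulVec, dotProduct_smul, EuclideanSpace.norm_sq_eq, dotProduct]
    push_cast
    rw [smul_eq_mul]
    congr 1
    refine Finset.sum_congr rfl fun i _ => ?_
    simp only [Pi.star_apply, norm_star]
    rw [mul_comm]
    exact Complex.mul_conj' (x i)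
  rw [sub_mulVec, dotProduct_sub, cHess_form hf, h1, ← Complex.ofReal_sub]
  exact_mod_cast sub_nonneg.2 (h _)

end Pool.Agent.Helper696_MA
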