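import Mathlib
import Pool.Agent.Helper696_MA.Defs

set_option autoImplicit false

open Set Filter Topology Matrix
open scoped ContDiff ComplexOrder

noncomputable section

namespace Pool.Agent.Helper696_MA

variable {n : ℕ}

theorem B_one_le_det_one_add {N : Matrix (Fin n) (Fin n) ℂ} (hN : N.PosSemidef) :
    ∃ t : ℝ, 1 ≤ t ∧ (1 + N).det = (t : ℂ) := by
  classical
  have hH := hN.isHermitian
  set U := hH.eigenvectorUnitary with hU
  have hs := hH.spectral_theorem
  have h1 : (1 + N) = (U : Matrix (Fin n) (Fin n) ℂ) *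
      (1 + diagonal (fun i => (hH.eigenvalues i : ℂ))) * (star U : Matrix (Fin n) (Fin n) ℂ) := by
    have hUU : (U : Matrix (Fin n) (Fin n) ℂ) * (star U : Matrix (Fin n) (Fin n) ℂ) = 1 := by
      exact Unitary.coe_mul_star_self U
    rw [mul_add, add_mul, mul_one, hUU]
    congr 1
  have hdet : (1 + N).det = ∏ i, (((1 + hH.eigenvalues i : ℝ)) : ℂ) := by
    rw [h1, det_mul, det_mul]
    have hUU : (U : Matrix (Fin n) (Fin n) ℂ) * (star U : Matrix (Fin n) (Fin n) ℂ) = 1 := by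
      exact Unitary.coe_mul_star_self U
    have hd : (U : Matrix (Fin n) (Fin n) ℂ).det * (star U : Matrix (Fin n) (Fin n) ℂ).det = 1 := by
      rw [← det_mul, hUU, det_one]
    have h2 : (1 + diagonal (fun i => (hH.eigenvalues i : ℂ)) : Matrix (Fin n) (Fin n) ℂ)
        = diagonal (fun i => (((1 + hH.eigenvalues i : ℝ)) : ℂ)) := by
      rw [← diagonal_one, diagonal_add]
      congr 1
      funext i
      push_cast
      rfl
    rw [h2, det_diagonal]
    calc _ = ((U : Matrix (Fin n) (Fin n) ℂ).det * (star U : Matrix (Fin n) (Fin n) ℂ).det) *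
        ∏ i, (((1 + hH.eigenvalues i : ℝ)) : ℂ) := by ring
      _ = _ := by rw [hd, one_mul]
  refine ⟨∏ i, (1 + hH.eigenvalues i), ?_, ?_⟩
  · have : ∀ i ∈ (Finset.univ : Finset (Fin n)), (1 : ℝ) ≤ 1 + hH.eigenvalues i := by
      intro i _
      have := hN.eigenvalues_nonneg i
      linarith
    calc (1 : ℝ) = ∏ _i : Fin n, (1 : ℝ) := by simp
      _ ≤ _ := Finset.prod_le_prod (fun _ _ => zero_le_one) this
  · rw [hdet]; push_cast; rfl

open scoped MatrixOrder in
theorem B_factor {A : Matrix (Fin n) (Fin n) ℂ} (hA : A.PosSemidef) :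
    ∃ L : Matrix (Fin n) (Fin n) ℂ, A = Lᴴ * L := by
  obtain ⟨B, hB⟩ := CStarAlgebra.nonneg_iff_eq_star_mul_self.mp hA.nonneg
  exact ⟨B, hB⟩

theorem det_re_pos {A : Matrix (Fin n) (Fin n) ℂ} (hA : A.PosDef) : 0 < (A.det).re := by
  have := hA.det_pos
  exact (Complex.pos_iff.1 this).1

theorem det_re_le {A B : Matrix (Fin n) (Fin n) ℂ} (hA : A.PosDef) (h : (B - A).PosSemidef) :
    (A.det).re ≤ (B.det).re := by
  classical
  obtain ⟨L, hL⟩ := B_factor hA.posSemidef
  have hdA : A.det ≠ 0 := hA.det_pos.ne'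
  have hLu : IsUnit L.det := by
    rw [isUnit_iff_ne_zero]
    intro h0
    apply hdA
    rw [hL, det_mul, h0, mul_zero]
  set N := (L⁻¹)ᴴ * (B - A) * L⁻¹ with hN
  have hNp : N.PosSemidef := by
    have := h.conjTranspose_mul_mul_same (L⁻¹)
    simpa [hN] using this
  obtain ⟨t, ht, htd⟩ := B_one_le_det_one_add hNp
  have hLi : L⁻¹ * L = 1 := nonsing_inv_mul L hLu
  have hLi2 : Lᴴ * (L⁻¹)ᴴ = 1 := by
    rw [← conjTranspose_mul, hLi, conjTranspose_one]
  have hB : B = Lᴴ * (1 + N) * L := by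
    rw [mul_add, add_mul, mul_one, ← hL, hN]
    have : Lᴴ * (L⁻¹ᴴ * (B - A) * L⁻¹) * L = (Lᴴ * (L⁻¹)ᴴ) * (B - A) * (L⁻¹ * L) := by
      simp only [mul_assoc]
    rw [this, hLi, hLi2]
    simp
  have hdet : B.det = A.det * (t : ℂ) := by
    have hA2 : A.det = (Lᴴ).det * L.det := by rw [hL, det_mul]
    rw [hA2, hB, det_mul, det_mul, htd]; ring
  have hpos := det_re_pos hA
  have him : (A.det).im = 0 := by
    have := (Complex.pos_iff.1 hA.det_pos).2
    exact this.symm
  rw [hdet]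
  simp only [Complex.mul_re, Complex.ofReal_re, Complex.ofReal_im, mul_zero, sub_zero]
  nlinarith

theorem pow_le_det_re {B : Matrix (Fin n) (Fin n) ℂ} {τ : ℝ} (hτ : 0 < τ)
    (h : (B - ((τ : ℝ) : ℂ) • (1 : Matrix (Fin n) (Fin n) ℂ)).PosSemidef) :
    τ ^ n ≤ (B.det).re := by
  classical
  have hP : (((τ : ℝ) : ℂ) • (1 : Matrix (Fin n) (Fin n) ℂ)).PosDef := by
    have h1 : (((τ : ℝ) : ℂ) • (1 : Matrix (Fin n) (Fin n) ℂ)) = Matrix.diagonal (fun _ => ((τ : ℝ) : ℂ)) := by
      rw [← Matrix.diagonal_one, ← Matrix.diagonal_smul]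
      congr 1
      funext i
      simp
    rw [h1]
    refine Matrix.PosDef.diagonal ?_
    intro i
    simpa using hτ
  have := det_re_le hP h
  have hd : (((τ : ℝ) : ℂ) • (1 : Matrix (Fin n) (Fin n) ℂ)).det = ((τ ^ n : ℝ) : ℂ) := by
    rw [det_smul, det_one, Fintype.card_fin, mul_one]
    push_cast
    rfl
  rw [hd, Complex.ofReal_re] at this
  exact this

end Pool.Agent.Helper696_MA
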