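import Mathlib
import Pool.Agent.Helper696_MA.Defs

/-!
Needs on disk `Pool/Agent/Helper696_MA/Defs.lean` (on origin/main): definitions `Cn`, `e`, `D2`, `cHess`, `levi`, `IsPSH`,
`IsSPCDomain`, `logDist`. Auxiliary lemmas of yours: please prefix their names with the target's letter and an underscore.
-/

set_option autoImplicit false

open Set Filter Topology Matrix
open scoped ContDiff ComplexOrder

noncomputable section

namespace Pool.Agent.Helper696_MA

variable {n : ℕ}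

theorem C_hasFDerivAt_comp (a : Cn n) {F F' : ℝ → ℝ} (hF : ∀ t, 0 ≤ t → HasDerivAt F (F' t) t)
    (w : Cn n) :
    HasFDerivAt (fun w : Cn n => F (‖w - a‖ ^ 2)) ((2 * F' (‖w - a‖ ^ 2)) • innerSL ℝ (w - a)) w := by
  have h1 : HasFDerivAt (fun w : Cn n => ‖w - a‖ ^ 2) (2 • innerSL ℝ (w - a)) w := by
    have h2 := ((hasFDerivAt_id (𝕜 := ℝ) w).sub_const a).norm_sq
    rw [ContinuousLinearMap.comp_id] at h2
    exact h2
  have h3 := (hF (‖w - a‖ ^ 2) (by positivity)).comp_hasFDerivAt w h1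
  refine h3.congr_fderiv ?_
  ext v
  simp only [_root_.smul_apply, smul_eq_mul, nsmul_eq_mul, innerSL_apply_apply]
  ring

theorem C_D2_comp (a : Cn n) {F F' F'' : ℝ → ℝ} (hF : ∀ t, 0 ≤ t → HasDerivAt F (F' t) t)
    (hF' : ∀ t, 0 ≤ t → HasDerivAt F' (F'' t) t) (z v w : Cn n) :
    D2 (fun w : Cn n => F (‖w - a‖ ^ 2)) z v w = 2 * F' (‖z - a‖ ^ 2) * inner ℝ v w +
      4 * F'' (‖z - a‖ ^ 2) * inner ℝ (z - a) v * inner ℝ (z - a) w := by
  have h1 : fderiv ℝ (fun w : Cn n => F (‖w - a‖ ^ 2)) =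
      fun w => (2 * F' (‖w - a‖ ^ 2)) • innerSL ℝ (w - a) := by
    funext w
    exact (C_hasFDerivAt_comp a hF w).fderiv
  have h2 : HasFDerivAt (fun w : Cn n => 2 * F' (‖w - a‖ ^ 2))
      ((2 * (2 * F'' (‖z - a‖ ^ 2))) • innerSL ℝ (z - a)) z := by
    have := (C_hasFDerivAt_comp a hF' z).const_mul 2
    rwa [smul_smul] at this
  have h3 : HasFDerivAt (fun w : Cn n => innerSL ℝ (w - a)) (innerSL ℝ) z := by
    have := (innerSL ℝ (E := Cn n)).hasFDerivAt.comp z ((hasFDerivAt_id (𝕜 := ℝ) z).sub_const a)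
    rw [ContinuousLinearMap.comp_id] at this
    exact this
  have h4 := h2.smul h3
  unfold D2
  rw [h1]
  have h5 : fderiv ℝ (fun w : Cn n => (2 * F' (‖w - a‖ ^ 2)) • innerSL ℝ (w - a)) z = _ := h4.fderiv
  rw [h5]
  change 2 * F' (‖z - a‖ ^ 2) * inner ℝ v w + 2 * (2 * F'' (‖z - a‖ ^ 2)) * inner ℝ (z - a) v *
    inner ℝ (z - a) w = _
  ring

theorem C_inner_e (ζ : Cn n) (j : Fin n) : inner ℝ ζ (e j) = (ζ j).re := by
  rw [PiLp.inner_apply, Finset.sum_eq_single j]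
  · simp [e]
  · intro i _ hi
    simp [e, hi]
  · simp

theorem C_inner_Ie (ζ : Cn n) (j : Fin n) : inner ℝ ζ (Complex.I • e j) = (ζ j).im := by
  rw [PiLp.inner_apply, Finset.sum_eq_single j]
  · simp [e]
  · intro i _ hi
    simp [e, hi]
  · simp

theorem C_cHess_comp (a : Cn n) {F F' F'' : ℝ → ℝ} (hF : ∀ t, 0 ≤ t → HasDerivAt F (F' t) t)
    (hF' : ∀ t, 0 ≤ t → HasDerivAt F' (F'' t) t) (z : Cn n) (i j : Fin n) :
    cHess (fun w : Cn n => F (‖w - a‖ ^ 2)) z i j =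
      (F' (‖z - a‖ ^ 2) : ℂ) * (1 : Matrix (Fin n) (Fin n) ℂ) i j +
        (F'' (‖z - a‖ ^ 2) : ℂ) * (starRingEnd ℂ ((z - a) i) * (z - a) j) := by
  unfold cHess
  rw [Matrix.of_apply]
  simp only [C_D2_comp a hF hF', C_inner_e, C_inner_Ie]
  generalize hζ : z - a = ζ
  apply Complex.ext
  · by_cases hij : i = j
    · subst hij
      simp [e, Matrix.one_apply]
      ring
    · have hji : ¬ j = i := fun h => hij h.symm
      simp [e, Matrix.one_apply, hij, hji]
      ring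
  · by_cases hij : i = j
    · subst hij
      simp [e, Matrix.one_apply]
      ring
    · have hji : ¬ j = i := fun h => hij h.symm
      simp [e, Matrix.one_apply, hij, hji]
      ring

theorem C_hasDerivAt_log {ε : ℝ} (hε : 0 < ε) (k C : ℝ) (t : ℝ) (ht : 0 ≤ t) :
    HasDerivAt (fun t => k * Real.log (t + ε ^ 2) + C) (k / (t + ε ^ 2)) t := by
  have hpos : t + ε ^ 2 ≠ 0 := by positivity
  have h := ((((hasDerivAt_id t).add_const (ε ^ 2)).log hpos).const_mul k).add_const C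
  refine h.congr_deriv ?_
  change k * (1 / (t + ε ^ 2)) = k / (t + ε ^ 2)
  ring

theorem C_hasDerivAt_inv {ε : ℝ} (hε : 0 < ε) (k : ℝ) (t : ℝ) (ht : 0 ≤ t) :
    HasDerivAt (fun t => k / (t + ε ^ 2)) (-k / (t + ε ^ 2) ^ 2) t := by
  have hpos : t + ε ^ 2 ≠ 0 := by positivity
  have h := ((((hasDerivAt_id t).add_const (ε ^ 2)).inv hpos).const_mul k)
  refine h.congr_deriv ?_
  change k * (-1 / (t + ε ^ 2) ^ 2) = -k / (t + ε ^ 2) ^ 2
  ring

/-! ## TARGET C (explicit complex Hessians). With the real inner product `⟪v,w⟫ = Re ∑ conj (v j) * w j` on `Cn n`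
(`fderiv` of `‖w - a‖^2` at `w` in the direction `v` is `2 ⟪w - a, v⟫`; you may want to prove things with
`∑ j, (((w j) - a j).re ^ 2 + ((w j) - a j).im ^ 2)`):
`D2 (‖·‖²) z v w = 2 ⟪v, w⟫`; for `ρ w = ‖w - a‖² + ε²`, `ζ = z - a`:
`D2 (log ρ) z v w = 2 ⟪v,w⟫ / ρ - 4 ⟪ζ,v⟫ ⟪ζ,w⟫ / ρ²`. With `ζ j = x j + i y j`: `⟪ζ, e j⟫ = x j`, `⟪ζ, I • e j⟫ = y j`,
`⟪e i, e j⟫ = ⟪I • e i, I • e j⟫ = δ_ij`, `⟪e i, I • e j⟫ = 0`. Hence
`cHess (log ρ) z i j = δ_ij / ρ - conj (ζ i) * ζ j / ρ²`, and by `Matrix.det_one_sub_mul_comm` (or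
`Matrix.det_one_add_replicateCol_mul_replicateRow`) `det (cHess (k log ρ + C) z) = (k/ρ)^n (1 - |ζ|²/ρ) = k^n ε² / ρ^(n+1)`. -/
theorem C_contDiff_log (a : Cn n) {ε : ℝ} (hε : 0 < ε) (k C : ℝ) :
    ContDiff ℝ ∞ (fun w : Cn n => k * Real.log (‖w - a‖ ^ 2 + ε ^ 2) + C) := by
  have h1 : ContDiff ℝ ∞ (fun w : Cn n => ‖w - a‖ ^ 2 + ε ^ 2) :=
    ((contDiff_norm_sq ℝ).comp (contDiff_id.sub contDiff_const)).add contDiff_const
  exact (contDiff_const.mul (h1.log fun w => by positivity)).add contDiff_const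

theorem det_cHess_log (a z : Cn n) {ε : ℝ} (hε : 0 < ε) (k C : ℝ) :
    (cHess (fun w : Cn n => k * Real.log (‖w - a‖ ^ 2 + ε ^ 2) + C) z).det
      = ((k ^ n * ε ^ 2 / (‖z - a‖ ^ 2 + ε ^ 2) ^ (n + 1) : ℝ) : ℂ) := by
  set ρ : ℝ := ‖z - a‖ ^ 2 + ε ^ 2 with hρ
  have hρ0 : ρ ≠ 0 := by positivity
  have hρc : (ρ : ℂ) ≠ 0 := by exact_mod_cast hρ0
  have h1 : cHess (fun w : Cn n => k * Real.log (‖w - a‖ ^ 2 + ε ^ 2) + C) z =
      ((k / ρ : ℝ) : ℂ) • (1 + Matrix.replicateCol Unit (fun i => -(starRingEnd ℂ ((z - a) i)) / (ρ : ℂ)) *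
        Matrix.replicateRow Unit (fun j => (z - a) j)) := by
    ext i j
    rw [C_cHess_comp a (C_hasDerivAt_log hε k C) (C_hasDerivAt_inv hε k) z i j, ← hρ]
    simp only [Matrix.smul_apply, Matrix.add_apply, Matrix.mul_apply, Matrix.replicateCol_apply,
      Matrix.replicateRow_apply, Finset.univ_unique, Finset.sum_const, Finset.card_singleton,
      one_smul, smul_eq_mul]
    push_cast
    field_simp
  rw [h1, Matrix.det_smul, Matrix.det_one_add_replicateCol_mul_replicateRow, Fintype.card_fin]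
  have h2 : (fun j => (z - a) j) ⬝ᵥ (fun i => -(starRingEnd ℂ ((z - a) i)) / (ρ : ℂ)) =
      ((-(‖z - a‖ ^ 2) / ρ : ℝ) : ℂ) := by
    rw [EuclideanSpace.norm_sq_eq]
    simp only [dotProduct]
    push_cast
    rw [← Finset.sum_neg_distrib, Finset.sum_div]
    refine Finset.sum_congr rfl fun j _ => ?_
    rw [← Complex.mul_conj']
    ring
  rw [h2]
  have h3 : (ρ : ℝ) - ‖z - a‖ ^ 2 = ε ^ 2 := by rw [hρ]; ring
  have h4 : (k / ρ) ^ n * (1 + -‖z - a‖ ^ 2 / ρ) = k ^ n * ε ^ 2 / ρ ^ (n + 1) := by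
    rw [← h3, div_pow, pow_succ]
    field_simp
    ring
  rw [← h4]
  push_cast
  ring

theorem C_contDiff_normSq (k C : ℝ) : ContDiff ℝ ∞ (fun w : Cn n => k * ‖w‖ ^ 2 + C) :=
  (contDiff_const.mul (contDiff_norm_sq ℝ)).add contDiff_const

theorem C_hasDerivAt_lin (k C t : ℝ) : HasDerivAt (fun t => k * t + C) k t := by
  simpa using ((hasDerivAt_id t).const_mul k).add_const C

theorem C_hasDerivAt_const (k t : ℝ) : HasDerivAt (fun _ : ℝ => k) 0 t := hasDerivAt_const t k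

theorem C_normSq_eq (k C : ℝ) : (fun w : Cn n => k * ‖w‖ ^ 2 + C) =
    fun w : Cn n => (fun t => k * t + C) (‖w - 0‖ ^ 2) := by
  funext w
  simp

theorem levi_normSq (z v : Cn n) (k C : ℝ) :
    levi (fun w : Cn n => k * ‖w‖ ^ 2 + C) z v = k * ‖v‖ ^ 2 := by
  unfold levi
  rw [C_normSq_eq, C_D2_comp 0 (F := fun t => k * t + C) (fun t _ => C_hasDerivAt_lin k C t)
    (fun t _ => C_hasDerivAt_const k t), C_D2_comp 0 (F := fun t => k * t + C)
    (fun t _ => C_hasDerivAt_lin k C t) (fun t _ => C_hasDerivAt_const k t)]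
  rw [real_inner_self_eq_norm_sq, real_inner_self_eq_norm_sq, norm_smul, Complex.norm_I, one_mul]
  ring

theorem cHess_normSq (z : Cn n) : cHess (fun w : Cn n => ‖w‖ ^ 2 - 1) z = 1 := by
  have h1 : (fun w : Cn n => ‖w‖ ^ 2 - 1) =
      fun w : Cn n => (fun t => 1 * t + (-1)) (‖w - 0‖ ^ 2) := by
    funext w
    simp
    ring
  ext i j
  rw [h1, C_cHess_comp 0 (F := fun t => 1 * t + (-1)) (fun t _ => C_hasDerivAt_lin 1 (-1) t)
    (fun t _ => C_hasDerivAt_const 1 t)]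
  simp

/-- The unit ball is a strictly pseudoconvex domain with smooth boundary (`U = univ`, `r w = ‖w‖² - 1`; the frontier of the ball is
contained in the sphere; `fderiv r z z = 2 ‖z‖² = 2`). -/
theorem isSPC_ball : IsSPCDomain (Metric.ball (0 : Cn n) 1) where
  isOpen := Metric.isOpen_ball
  connected := ⟨Metric.nonempty_ball.2 one_pos, (convex_ball (0 : Cn n) 1).isPreconnected⟩
  bounded := Metric.isBounded_ball
  defining := by
    refine ⟨univ, fun w => ‖w‖ ^ 2 - 1, isOpen_univ, subset_univ _, ?_, ?_, ?_, ?_⟩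
    · have := C_contDiff_normSq (n := n) 1 (-1)
      have h1 : (fun w : Cn n => ‖w‖ ^ 2 - 1) = fun w : Cn n => 1 * ‖w‖ ^ 2 + (-1) := by
        funext w
        ring
      rw [h1]
      exact this.contDiffOn
    · intro z _
      rw [cHess_normSq]
      exact Matrix.PosDef.one
    · ext z
      simp only [mem_ball_zero_iff, mem_ofPred_eq, mem_univ, true_and, sub_neg]
      constructor
      · intro h
        have := norm_nonneg z
        nlinarith
      · intro h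
        have := norm_nonneg z
        nlinarith
    · intro z hz
      have h1 : ‖z‖ = 1 := by
        have := Metric.frontier_ball_subset_sphere hz
        simpa using this
      refine ⟨by simp [h1], fun h0 => ?_⟩
      have h2 := C_hasFDerivAt_comp (0 : Cn n) (F := fun t => t - 1) (F' := fun _ => 1)
        (fun t _ => (hasDerivAt_id t).sub_const 1) z
      simp only [sub_zero] at h2
      rw [h2.fderiv] at h0
      have h3 := congrArg (fun L => L z) h0
      simp [h1] at h3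

end Pool.Agent.Helper696_MA

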