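import Mathlib
import Pool.Agent.Helper696_MA.A
import Pool.Agent.Helper696_MA.B
import Pool.Agent.Helper696_MA.C

set_option autoImplicit false

open Set Filter Topology Matrix
open scoped ContDiff ComplexOrder

noncomputable section

namespace Pool.Agent.Helper696_MA

variable {n : ℕ}

/-! ### The maximum principle -/

theorem E_max {Ω : Set (Cn n)} (hΩ : IsOpen Ω) (hb : Bornology.IsBounded Ω) {s t₁ : ℝ}
    (w : Cn n × ℝ → ℝ)
    (hc : ContinuousOn w (closure Ω ×ˢ Icc s t₁))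
    (h0 : ∀ z ∈ closure Ω, w (z, s) ≤ 0)
    (h1 : ∀ z ∈ frontier Ω, ∀ t ∈ Icc s t₁, w (z, t) ≤ 0)
    (hmax : ∀ z ∈ Ω, ∀ t ∈ Ioc s t₁, 0 < w (z, t) → (∀ z' ∈ closure Ω, w (z', t) ≤ w (z, t)) →
      (∀ t' ∈ Icc s t, w (z, t') ≤ w (z, t)) → False) :
    ∀ z ∈ closure Ω, ∀ t ∈ Icc s t₁, w (z, t) ≤ 0 := by
  intro z hz t ht
  have hK : IsCompact (closure Ω ×ˢ Icc s t₁) := (hb.isCompact_closure).prod isCompact_Icc
  obtain ⟨⟨z₀, t₀⟩, hmem, hm⟩ := hK.exists_isMaxOn ⟨(z, t), hz, ht⟩ hc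
  have hz₀ : z₀ ∈ closure Ω := hmem.1
  have ht₀ : t₀ ∈ Icc s t₁ := hmem.2
  have hle : ∀ z' ∈ closure Ω, ∀ t' ∈ Icc s t₁, w (z', t') ≤ w (z₀, t₀) :=
    fun z' hz' t' ht' => hm (show (z', t') ∈ _ from ⟨hz', ht'⟩)
  refine (hle z hz t ht).trans ?_
  by_contra hpos
  push Not at hpos
  have hts : s < t₀ := by
    rcases ht₀.1.lt_or_eq with h | h
    · exact h
    · exact absurd (h0 z₀ hz₀) (by rw [h]; exact not_le.mpr hpos)
  have hzΩ : z₀ ∈ Ω := by
    by_contra hno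
    have : z₀ ∈ frontier Ω := ⟨hz₀, by rwa [hΩ.interior_eq]⟩
    exact absurd (h1 z₀ this t₀ ht₀) (not_le.mpr hpos)
  exact hmax z₀ hzΩ t₀ ⟨hts, ht₀.2⟩ hpos (fun z' hz' => hle z' hz' t₀ ht₀)
    (fun t' ht' => hle z₀ hz₀ t' ⟨ht'.1, ht'.2.trans ht₀.2⟩)

theorem E_time {f : ℝ → ℝ} {f' s t : ℝ} (hd : HasDerivAt f f' t) (hs : s < t)
    (h : ∀ t' ∈ Icc s t, f t' ≤ f t) : 0 ≤ f' := by
  have h1 : Tendsto (slope f t) (𝓝[<] t) (𝓝 f') :=
    (hasDerivAt_iff_tendsto_slope.mp hd).mono_left (nhdsWithin_mono _ (fun x hx => ne_of_lt hx))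
  refine ge_of_tendsto h1 ?_
  filter_upwards [Ioo_mem_nhdsLT hs] with x hx
  have := h x ⟨hx.1.le, hx.2.le⟩
  rw [slope_def_field]
  exact div_nonneg_of_nonpos (by linarith) (by linarith [hx.2])

theorem E_contDiffAt {Ω : Set (Cn n)} (hΩ : IsOpen Ω) {T : ℝ} {u₀ : Cn n → EReal}
    {φ u : Cn n × ℝ → ℝ} (hu : IsSolution Ω T u₀ φ u) {z : Cn n} (hz : z ∈ Ω) {t : ℝ}
    (ht : t ∈ Ioo 0 T) : ContDiffAt ℝ ∞ u (z, t) :=
  hu.smooth.contDiffAt (prod_mem_nhds (mem_of_superset (hΩ.mem_nhds hz) subset_closure)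
    (Ioo_mem_nhds ht.1 ht.2))

theorem E_space {Ω : Set (Cn n)} (hΩ : IsOpen Ω) {T : ℝ} {u₀ : Cn n → EReal}
    {φ u : Cn n × ℝ → ℝ} (hu : IsSolution Ω T u₀ φ u) {z : Cn n} (hz : z ∈ Ω) {t : ℝ}
    (ht : t ∈ Ioo 0 T) : ContDiffAt ℝ 2 (fun w => u (w, t)) z := by
  have h := (E_contDiffAt hΩ hu hz ht).of_le (m := 2) ENat.LEInfty.out
  exact ContDiffAt.comp z (f := fun w : Cn n => (w, t)) (g := u) h
    (contDiffAt_id.prodMk contDiffAt_const)

theorem E_timeDeriv {Ω : Set (Cn n)} (hΩ : IsOpen Ω) {T : ℝ} {u₀ : Cn n → EReal}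
    {φ u : Cn n × ℝ → ℝ} (hu : IsSolution Ω T u₀ φ u) {z : Cn n} (hz : z ∈ Ω) {t : ℝ}
    (ht : t ∈ Ioo 0 T) :
    HasDerivAt (fun s => u (z, s)) (Real.log ((cHess (fun w => u (w, t)) z).det).re) t := by
  rw [← hu.flow t ht z hz]
  have h := (E_contDiffAt hΩ hu hz ht).of_le (m := 1) (by exact_mod_cast le_top)
  have h2 : ContDiffAt ℝ 1 (fun s => u (z, s)) t :=
    ContDiffAt.comp t (f := fun s : ℝ => (z, s)) (g := u) h (contDiffAt_const.prodMk contDiffAt_id)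
  exact (h2.differentiableAt (by norm_num)).hasDerivAt

theorem E_cont {Ω : Set (Cn n)} {T : ℝ} {u₀ : Cn n → EReal}
    {φ u : Cn n × ℝ → ℝ} (hu : IsSolution Ω T u₀ φ u) {s t : ℝ} (hs : 0 < s) (ht : t < T) :
    ContinuousOn u (closure Ω ×ˢ Icc s t) :=
  hu.smooth.continuousOn.mono (prod_mono_right (fun _ hx => ⟨hs.trans_le hx.1, hx.2.trans_lt ht⟩))

theorem E_bdry {Ω U : Set (Cn n)} {T : ℝ} {u₀ : Cn n → EReal}
    {φ u : Cn n × ℝ → ℝ} (hd : IsData Ω U T u₀ φ) (hu : IsSolution Ω T u₀ φ u) {s t : ℝ}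
    (hs : s ∈ Ioo 0 T) (ht : t ∈ Ioo 0 T) {z : Cn n} (hz : z ∈ frontier Ω) :
    u (z, s) = u (z, t) := by
  rw [hu.bdry s hs z hz, hu.bdry t ht z hz]
  have h := (hd.compat z hz s ⟨hs.1.le, hs.2⟩).trans (hd.compat z hz t ⟨ht.1.le, ht.2⟩).symm
  exact_mod_cast h

theorem E_log {τ : ℝ} (hτ : 0 < τ) : - Real.log τ ≤ 2 / √τ := by
  have h := Real.log_le_sub_one_of_pos (x := 1 / √τ) (by positivity)
  rw [one_div, Real.log_inv, Real.log_sqrt hτ.le] at h
  have : 2 / √τ = 2 * (√τ)⁻¹ := by ring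
  rw [this]
  linarith

/-- Almost monotonicity in time. -/
theorem almost_mono {Ω U : Set (Cn n)} (hΩ : IsOpen Ω) (hb : Bornology.IsBounded Ω) {T : ℝ}
    {u₀ : Cn n → EReal} {φ u : Cn n × ℝ → ℝ} (hd : IsData Ω U T u₀ φ)
    (hu : IsSolution Ω T u₀ φ u) {R : ℝ} (hR : ∀ z ∈ closure Ω, ‖z‖ ≤ R) {s t : ℝ} (hs : 0 < s)
    (hst : s < t) (ht : t < T) {z : Cn n} (hz : z ∈ closure Ω) :
    u (z, s) ≤ u (z, t) + ((t - s) * R ^ 2 + 4 * n * √(t - s)) := by
  refine le_of_forall_pos_le_add (fun δ₀ hδ₀ => ?_)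
  have hτ0 : 0 < t - s := by linarith
  obtain ⟨δ, hδ, hδe⟩ : ∃ δ : ℝ, 0 < δ ∧ δ * (t - s) = δ₀ :=
    ⟨δ₀ / (t - s), by positivity, by field_simp⟩
  have key := E_max hΩ hb (s := s) (t₁ := t)
    (fun p => u (p.1, s) + ((p.2 - s) * ‖p.1‖ ^ 2 + (-(p.2 - s) * R ^ 2 - 4 * n * √(p.2 - s)))
      - u p - δ * (p.2 - s)) ?_ ?_ ?_ ?_ z hz t ⟨hst.le, le_rfl⟩
  · simp only at key
    have : 0 ≤ (t - s) * ‖z‖ ^ 2 := by positivity
    linarith
  · have h1 : ContinuousOn (fun p : Cn n × ℝ => u (p.1, s)) (closure Ω ×ˢ Icc s t) := by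
      refine (E_cont hu hs ht).comp (by fun_prop) ?_
      intro p hp
      exact ⟨hp.1, le_rfl, hst.le⟩
    have h2 := E_cont hu hs ht
    have h3 : Continuous (fun p : Cn n × ℝ => ((p.2 - s) * ‖p.1‖ ^ 2
      + (-(p.2 - s) * R ^ 2 - 4 * n * √(p.2 - s)))) := by fun_prop
    have h4 : Continuous (fun p : Cn n × ℝ => δ * (p.2 - s)) := by fun_prop
    exact ((h1.add h3.continuousOn).sub h2).sub h4.continuousOn
  · intro z' hz'
    simp
  · intro z' hz' t' ht'
    have hb' := E_bdry hd hu (s := s) (t := t') ⟨hs, hst.trans ht⟩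
      ⟨hs.trans_le ht'.1, ht'.2.trans_lt ht⟩ hz'
    simp only
    rw [hb']
    have hn : ‖z'‖ ^ 2 ≤ R ^ 2 := by
      have := hR z' (frontier_subset_closure hz')
      gcongr
    have h5 : 0 ≤ t' - s := by linarith [ht'.1]
    have h6 : 0 ≤ 4 * (n : ℝ) * √(t' - s) := by positivity
    have h7 : (t' - s) * ‖z'‖ ^ 2 ≤ (t' - s) * R ^ 2 := by gcongr
    have h8 : 0 ≤ δ * (t' - s) := by positivity
    linarith
  · intro z' hz' t' ht' _ hsp htm
    have ht'T : t' ∈ Ioo 0 T := ⟨hs.trans ht'.1, ht'.2.trans_lt ht⟩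
    have hsT : s ∈ Ioo 0 T := ⟨hs, hst.trans ht⟩
    have hτ : 0 < t' - s := by linarith [ht'.1]
    -- the spatial part
    have hus := E_space hΩ hu hz' hsT
    have hut := E_space hΩ hu hz' ht'T
    have hq : ContDiffAt ℝ 2 (fun w : Cn n => (t' - s) * ‖w‖ ^ 2
        + (-(t' - s) * R ^ 2 - 4 * n * √(t' - s) - δ * (t' - s))) z' :=
      ((C_contDiff_normSq _ _).of_le ENat.LEInfty.out).contDiffAt
    have hloc : IsLocalMax (fun w : Cn n => (u (w, s) + ((t' - s) * ‖w‖ ^ 2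
        + (-(t' - s) * R ^ 2 - 4 * n * √(t' - s) - δ * (t' - s)))) - u (w, t')) z' := by
      filter_upwards [hΩ.mem_nhds hz'] with w hw
      have := hsp w (subset_closure hw)
      simp only at this ⊢
      linarith
    have hD : ∀ v, D2 (fun w => u (w, s)) z' v v + D2 (fun w : Cn n => (t' - s) * ‖w‖ ^ 2
        + (-(t' - s) * R ^ 2 - 4 * n * √(t' - s) - δ * (t' - s))) z' v v
        ≤ D2 (fun w => u (w, t')) z' v v := by
      intro v
      have h := D2_nonpos_of_isLocalMax ((hus.add hq).sub hut) hloc v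
      rw [D2_sub (hus.add hq) hut, D2_add hus hq] at h
      linarith
    have hL : ∀ v : Cn n, (t' - s) * ‖v‖ ^ 2 ≤ levi (fun w => u (w, t')) z' v := by
      intro v
      have h1 := hD v
      have h2 := hD (Complex.I • v)
      have h3 := levi_normSq z' v (t' - s)
        (-(t' - s) * R ^ 2 - 4 * n * √(t' - s) - δ * (t' - s))
      have h4 := levi_nonneg_of_posDef hus (hu.spsh s hsT z' hz') v
      unfold levi at h3 h4 ⊢
      linarith
    have hdet := pow_le_det_re hτ (posSemidef_sub_smul_one hut hL)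
    have hlog : (n : ℝ) * Real.log (t' - s)
        ≤ Real.log ((cHess (fun w => u (w, t')) z').det).re := by
      rw [← Real.log_pow]
      exact Real.log_le_log (by positivity) hdet
    -- the time part
    have hder : HasDerivAt (fun r => u (z', s) + ((r - s) * ‖z'‖ ^ 2
        + (-(r - s) * R ^ 2 - 4 * n * √(r - s))) - u (z', r) - δ * (r - s))
        ((1 * ‖z'‖ ^ 2 + (-1 * R ^ 2 - 4 * n * (1 / (2 * √(t' - s)))))
          - Real.log ((cHess (fun w => u (w, t')) z').det).re - δ * 1) t' := by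
      have e1 : HasDerivAt (fun r : ℝ => r - s) 1 t' := (hasDerivAt_id t').sub_const s
      have e2 := e1.sqrt hτ.ne'
      exact ((((e1.mul_const (‖z'‖ ^ 2)).add ((e1.neg.mul_const (R ^ 2)).sub
        (e2.const_mul (4 * (n : ℝ))))).const_add _).sub (E_timeDeriv hΩ hu hz' ht'T)).sub
        (e1.const_mul δ)
    have h9 := E_time hder ht'.1 htm
    have hn : ‖z'‖ ^ 2 ≤ R ^ 2 := by
      have := hR z' (subset_closure hz')
      gcongr
    have h10 := E_log hτ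
    have h11 : (n : ℝ) * (- Real.log (t' - s)) ≤ n * (2 / √(t' - s)) := by gcongr
    have h12 : 4 * (n : ℝ) * (1 / (2 * √(t' - s))) = n * (2 / √(t' - s)) := by ring
    rw [h12] at h9
    linarith


/-- Comparison with the explicit supersolution. -/
theorem upper_bound {Ω : Set (Cn n)} (hΩ : IsOpen Ω) (hb : Bornology.IsBounded Ω) {T : ℝ}
    {u₀ : Cn n → EReal} {φ u : Cn n × ℝ → ℝ} (hu : IsSolution Ω T u₀ φ u) {a : Cn n}
    {c C B ε : ℝ} (hε : 0 < ε) (hB1 : n * Real.log (c / 2) ≤ B)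
    (hB2 : ∀ z ∈ closure Ω, n * Real.log (‖z - a‖ ^ 2 + ε ^ 2) ≤ B)
    (hbd : ∀ z ∈ frontier Ω, ∀ t ∈ Ioo 0 T, u (z, t) ≤ c / 2 * Real.log (‖z - a‖ ^ 2 + ε ^ 2) + C)
    {s t : ℝ} (hs : 0 < s) (hst : s < t) (ht : t < T) (hk : 2 * n * (t - s) < c)
    (hinit : ∀ z ∈ closure Ω, u (z, s) ≤ c / 2 * Real.log (‖z - a‖ ^ 2 + ε ^ 2) + C)
    {z : Cn n} (hz : z ∈ closure Ω) :
    u (z, t) ≤ (c - 2 * n * (t - s)) / 2 * Real.log (‖z - a‖ ^ 2 + ε ^ 2) + (B * (t - s) + C) := by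
  refine le_of_forall_pos_le_add (fun δ₀ hδ₀ => ?_)
  have hτ0 : 0 < t - s := by linarith
  obtain ⟨δ, hδ, hδe⟩ : ∃ δ : ℝ, 0 < δ ∧ δ * (t - s) = δ₀ :=
    ⟨δ₀ / (t - s), by positivity, by field_simp⟩
  have hρ : ∀ z : Cn n, 0 < ‖z - a‖ ^ 2 + ε ^ 2 := fun z => by positivity
  have key := E_max hΩ hb (s := s) (t₁ := t)
    (fun p => u p - ((c - 2 * n * (p.2 - s)) / 2 * Real.log (‖p.1 - a‖ ^ 2 + ε ^ 2)
      + (B * (p.2 - s) + C)) - δ * (p.2 - s)) ?_ ?_ ?_ ?_ z hz t ⟨hst.le, le_rfl⟩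
  · simp only at key
    linarith
  · have h2 := E_cont hu hs ht
    have h5 : Continuous (fun p : Cn n × ℝ => Real.log (‖p.1 - a‖ ^ 2 + ε ^ 2)) := by
      refine Continuous.log (by fun_prop) (fun p => (hρ p.1).ne')
    have h3 : Continuous (fun p : Cn n × ℝ =>
      ((c - 2 * n * (p.2 - s)) / 2 * Real.log (‖p.1 - a‖ ^ 2 + ε ^ 2)
      + (B * (p.2 - s) + C))) := by fun_prop
    have h4 : Continuous (fun p : Cn n × ℝ => δ * (p.2 - s)) := by fun_prop
    exact (h2.sub h3.continuousOn).sub h4.continuousOn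
  · intro z' hz'
    have := hinit z' hz'
    simp only [sub_self, mul_zero, sub_zero, zero_add]
    linarith
  · intro z' hz' t' ht'
    have h1 := hbd z' hz' t' ⟨hs.trans_le ht'.1, ht'.2.trans_lt ht⟩
    have h2 := hB2 z' (frontier_subset_closure hz')
    have h5 : 0 ≤ t' - s := by linarith [ht'.1]
    have h6 : (t' - s) * (n * Real.log (‖z' - a‖ ^ 2 + ε ^ 2)) ≤ (t' - s) * B := by gcongr
    have h8 : 0 ≤ δ * (t' - s) := by positivity
    simp only
    nlinarith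
  · intro z' hz' t' ht' _ hsp htm
    have ht'T : t' ∈ Ioo 0 T := ⟨hs.trans ht'.1, ht'.2.trans_lt ht⟩
    have hτ : 0 < t' - s := by linarith [ht'.1]
    have hkpos : 0 < (c - 2 * n * (t' - s)) / 2 := by
      have : 2 * (n : ℝ) * (t' - s) ≤ 2 * n * (t - s) := by
        have := ht'.2
        gcongr
      linarith
    -- the spatial part
    have hut := E_space hΩ hu hz' ht'T
    have hq : ContDiffAt ℝ 2 (fun w : Cn n => (c - 2 * n * (t' - s)) / 2
        * Real.log (‖w - a‖ ^ 2 + ε ^ 2) + (B * (t' - s) + C + δ * (t' - s))) z' :=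
      ((C_contDiff_log a hε _ _).of_le ENat.LEInfty.out).contDiffAt
    have hloc : IsLocalMax (fun w : Cn n => u (w, t') - ((c - 2 * n * (t' - s)) / 2
        * Real.log (‖w - a‖ ^ 2 + ε ^ 2) + (B * (t' - s) + C + δ * (t' - s)))) z' := by
      filter_upwards [hΩ.mem_nhds hz'] with w hw
      have := hsp w (subset_closure hw)
      simp only at this ⊢
      linarith
    have hD : ∀ v, D2 (fun w => u (w, t')) z' v v ≤ D2 (fun w : Cn n =>
        (c - 2 * n * (t' - s)) / 2 * Real.log (‖w - a‖ ^ 2 + ε ^ 2)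
          + (B * (t' - s) + C + δ * (t' - s))) z' v v := by
      intro v
      have h := D2_nonpos_of_isLocalMax (hut.sub hq) hloc v
      rw [D2_sub hut hq] at h
      linarith
    have hL : ∀ v : Cn n, levi (fun w => u (w, t')) z' v ≤ levi (fun w : Cn n =>
        (c - 2 * n * (t' - s)) / 2 * Real.log (‖w - a‖ ^ 2 + ε ^ 2)
          + (B * (t' - s) + C + δ * (t' - s))) z' v := by
      intro v
      have h1 := hD v
      have h2 := hD (Complex.I • v)
      unfold levi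
      linarith
    have hpd := hu.spsh t' ht'T z' hz'
    have hdet := det_re_le hpd (posSemidef_sub hut hq hL)
    rw [det_cHess_log a z' hε, Complex.ofReal_re] at hdet
    have hlog : Real.log ((cHess (fun w => u (w, t')) z').det).re
        ≤ n * Real.log ((c - 2 * n * (t' - s)) / 2) + 2 * Real.log ε
          - (n + 1) * Real.log (‖z' - a‖ ^ 2 + ε ^ 2) := by
      refine (Real.log_le_log (det_re_pos hpd) hdet).trans (le_of_eq ?_)
      rw [Real.log_div (by positivity) (by positivity), Real.log_mul (by positivity) (by positivity),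
        Real.log_pow, Real.log_pow, Real.log_pow]
      push_cast
      ring
    -- the time part
    have hder : HasDerivAt (fun r => u (z', r) - ((c - 2 * n * (r - s)) / 2
        * Real.log (‖z' - a‖ ^ 2 + ε ^ 2) + (B * (r - s) + C)) - δ * (r - s))
        (Real.log ((cHess (fun w => u (w, t')) z').det).re
          - (-(2 * n * 1) / 2 * Real.log (‖z' - a‖ ^ 2 + ε ^ 2) + B * 1) - δ * 1) t' := by
      have e1 : HasDerivAt (fun r : ℝ => r - s) 1 t' := (hasDerivAt_id t').sub_const s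
      have e2 : HasDerivAt (fun r : ℝ => (c - 2 * n * (r - s)) / 2
          * Real.log (‖z' - a‖ ^ 2 + ε ^ 2)) (-(2 * n * 1) / 2
          * Real.log (‖z' - a‖ ^ 2 + ε ^ 2)) t' :=
        (((e1.const_mul (2 * (n : ℝ))).const_sub c).div_const 2).mul_const _
      exact ((E_timeDeriv hΩ hu hz' ht'T).sub (e2.add ((e1.const_mul B).add_const C))).sub
        (e1.const_mul δ)
    have h9 := E_time hder ht'.1 htm
    have h10 : (n : ℝ) * Real.log ((c - 2 * n * (t' - s)) / 2) ≤ n * Real.log (c / 2) := by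
      have h11 : (c - 2 * n * (t' - s)) / 2 ≤ c / 2 := by
        have : 0 ≤ 2 * (n : ℝ) * (t' - s) := by positivity
        linarith
      have := Real.log_le_log hkpos h11
      gcongr
    have h12 : 2 * Real.log ε ≤ Real.log (‖z' - a‖ ^ 2 + ε ^ 2) := by
      have : Real.log (ε ^ 2) ≤ Real.log (‖z' - a‖ ^ 2 + ε ^ 2) :=
        Real.log_le_log (by positivity) (by nlinarith [sq_nonneg ‖z' - a‖])
      rwa [Real.log_pow, Nat.cast_ofNat] at this
    nlinarith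

/-- Uniform upper bound for small times. -/
theorem unif_small {Ω U : Set (Cn n)} (hΩ : IsOpen Ω) (hb : Bornology.IsBounded Ω) {T : ℝ}
    {u₀ : Cn n → EReal} {φ u : Cn n × ℝ → ℝ} (hd : IsData Ω U T u₀ φ)
    (hu : IsSolution Ω T u₀ φ u) {h : Cn n → ℝ} (hh : ContinuousOn h (closure Ω))
    (hlt : ∀ z ∈ closure Ω, u₀ z < ((h z : ℝ) : EReal)) :
    ∃ s₀ > 0, ∀ s ∈ Ioo 0 s₀, ∀ z ∈ closure Ω, u (z, s) ≤ h z := by
  obtain ⟨R, hR⟩ := hb.closure.exists_norm_le
  refine (hb.isCompact_closure).induction_on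
    (p := fun S => ∃ s₀ > (0 : ℝ), ∀ s ∈ Ioo 0 s₀, ∀ z ∈ S, u (z, s) ≤ h z) ?_ ?_ ?_ ?_
  · exact ⟨1, one_pos, by simp⟩
  · rintro S S' hSS ⟨s₀, h0, h1⟩
    exact ⟨s₀, h0, fun s hs z hz => h1 s hs z (hSS hz)⟩
  · rintro S S' ⟨s₀, h0, h1⟩ ⟨s₁, h2, h3⟩
    refine ⟨min s₀ s₁, lt_min h0 h2, fun s hs z hz => ?_⟩
    rcases hz with hz | hz
    · exact h1 s ⟨hs.1, hs.2.trans_le (min_le_left _ _)⟩ z hz
    · exact h3 s ⟨hs.1, hs.2.trans_le (min_le_right _ _)⟩ z hz
  · intro z hz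
    obtain ⟨r, hr1, hr2⟩ := EReal.lt_iff_exists_real_btwn.mp (hlt z hz)
    rw [EReal.coe_lt_coe_iff] at hr2
    have e1 : ∀ᶠ t in 𝓝[>] (0 : ℝ), u (z, t) < r := by
      have := (hu.init z hz).eventually_lt_const hr1
      filter_upwards [this] with t ht
      exact_mod_cast ht
    have e2 : ∀ᶠ t in 𝓝[>] (0 : ℝ), t * R ^ 2 + 4 * n * √t < h z - r := by
      have hc : Continuous (fun t : ℝ => t * R ^ 2 + 4 * n * √t) := by fun_prop
      have h0 : Tendsto (fun t : ℝ => t * R ^ 2 + 4 * n * √t) (𝓝[>] 0) (𝓝 0) := by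
        have := (hc.tendsto 0).mono_left (nhdsWithin_le_nhds (s := Ioi (0 : ℝ)))
        simpa using this
      exact h0.eventually_lt_const (by linarith)
    have e3 : ∀ᶠ t in 𝓝[>] (0 : ℝ), t ∈ Ioo 0 T := Ioo_mem_nhdsGT hd.pos
    obtain ⟨t₀, ht1, ht2, ht3⟩ := (e1.and (e2.and e3)).exists
    have hcont : ContinuousOn (fun z' => u (z', t₀)) (closure Ω) := by
      have := hu.smooth.continuousOn
      refine this.comp (f := fun z' : Cn n => (z', t₀)) (by fun_prop) ?_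
      intro z' hz'
      exact ⟨hz', ht3⟩
    have hev : ∀ᶠ z' in 𝓝[closure Ω] z, u (z', t₀) + (t₀ * R ^ 2 + 4 * n * √t₀) < h z' := by
      have h1 : ContinuousWithinAt (fun z' => u (z', t₀) + (t₀ * R ^ 2 + 4 * n * √t₀) - h z')
          (closure Ω) z := ((hcont z hz).add continuousWithinAt_const).sub (hh z hz)
      have h2 : u (z, t₀) + (t₀ * R ^ 2 + 4 * n * √t₀) - h z < 0 := by linarith
      filter_upwards [h1.eventually_lt_const h2] with z' hz'
      linarith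
    refine ⟨_, inter_mem hev self_mem_nhdsWithin, t₀, ht3.1, ?_⟩
    rintro s hs z' ⟨hz1, hz2⟩
    have h3 := almost_mono hΩ hb hd hu hR hs.1 hs.2 ht3.2 hz2
    have h4 : (t₀ - s) * R ^ 2 + 4 * n * √(t₀ - s) ≤ t₀ * R ^ 2 + 4 * n * √t₀ := by
      have : t₀ - s ≤ t₀ := by linarith [hs.1]
      gcongr
    have h5 : u (z', t₀) + (t₀ * R ^ 2 + 4 * n * √t₀) < h z' := hz1
    linarith

/-- **Main theorem**: no solution if `u₀` has a positive Lelong number at a point of `Ω`. -/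
theorem no_solution {Ω U : Set (Cn n)} (hΩ : IsOpen Ω) (hb : Bornology.IsBounded Ω) {T : ℝ}
    {u₀ : Cn n → EReal} {φ : Cn n × ℝ → ℝ} (hd : IsData Ω U T u₀ φ) {a : Cn n} (ha : a ∈ Ω)
    {c : ℝ} (hc : 0 < c) (ha0 : u₀ a = ⊥)
    (hL : ∀ᶠ z in 𝓝[≠] a, u₀ z ≤ ((c * Real.log ‖z - a‖ : ℝ) : EReal)) :
    ¬ ∃ u, IsSolution Ω T u₀ φ u := by
  rintro ⟨u, hu⟩
  have haK : a ∈ closure Ω := subset_closure ha
  have hK := hb.isCompact_closure
  -- upper bound on the closure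
  obtain ⟨C, hC⟩ : ∃ C : ℝ, ∀ z ∈ closure Ω, z ≠ a →
      u₀ z ≤ ((c * Real.log ‖z - a‖ + C : ℝ) : EReal) := by
    obtain ⟨r, hr, hr'⟩ := Metric.eventually_nhds_iff.mp (eventually_nhdsWithin_iff.mp hL)
    obtain ⟨M, hM⟩ : ∃ M : ℝ, ∀ z ∈ closure Ω, u₀ z ≤ (M : EReal) := by
      obtain ⟨z₀, hz₀, hmax⟩ := UpperSemicontinuousOn.exists_isMaxOn ⟨a, haK⟩ hK
        (hd.psh.usc.mono hd.sub)
      have h1 := hd.psh.lt_top z₀ (hd.sub hz₀)
      obtain ⟨M, hM1, -⟩ := EReal.lt_iff_exists_real_btwn.mp h1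
      exact ⟨M, fun z hz => (hmax hz).trans hM1.le⟩
    refine ⟨max 0 (M - c * Real.log r), fun z hz hza => ?_⟩
    rcases lt_or_ge (dist z a) r with h | h
    · refine (hr' h hza).trans ?_
      rw [EReal.coe_le_coe_iff]
      linarith [le_max_left 0 (M - c * Real.log r)]
    · refine (hM z hz).trans ?_
      rw [EReal.coe_le_coe_iff]
      rw [dist_eq_norm] at h
      have h2 := Real.log_le_log hr h
      have h3 : c * Real.log r ≤ c * Real.log ‖z - a‖ := by gcongr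
      linarith [le_max_right 0 (M - c * Real.log r)]
  obtain ⟨D, hD⟩ : ∃ D : ℝ, ∀ z ∈ closure Ω, ‖z - a‖ ≤ D := by
    obtain ⟨R, hR⟩ := hb.closure.exists_norm_le
    exact ⟨R + ‖a‖, fun z hz => (norm_sub_le z a).trans (by linarith [hR z hz])⟩
  obtain ⟨B, hB⟩ : ∃ B : ℝ, B = max (n * Real.log (c / 2)) (n * Real.log (D ^ 2 + 1)) := ⟨_, rfl⟩
  have hD0 : 0 ≤ D := (norm_nonneg _).trans (hD a haK)
  -- the time
  have hn0 : (0 : ℝ) ≤ n := Nat.cast_nonneg n
  obtain ⟨t, ht0, htT, htc⟩ : ∃ t : ℝ, 0 < t ∧ t < T ∧ 2 * n * t ≤ c / 2 := by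
    refine ⟨min (T / 2) (c / (4 * (n + 1))), lt_min (by linarith [hd.pos]) (by positivity),
      (min_le_left _ _).trans_lt (by linarith [hd.pos]), ?_⟩
    have h1 : min (T / 2) (c / (4 * ((n : ℝ) + 1))) ≤ c / (4 * (n + 1)) := min_le_right _ _
    have h2 : 2 * (n : ℝ) * (c / (4 * (n + 1))) ≤ c / 2 := by
      rw [mul_div_assoc', div_le_div_iff₀ (by positivity) (by norm_num)]
      nlinarith
    have h3 : 2 * (n : ℝ) * min (T / 2) (c / (4 * ((n : ℝ) + 1)))
      ≤ 2 * n * (c / (4 * (n + 1))) := by gcongr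
    linarith
  -- the bound for every `ε`
  have main : ∀ ε ∈ Ioc (0 : ℝ) 1, u (a, t) ≤ c / 2 * Real.log ε + (|B| * T + C + 1) := by
    intro ε hε
    have hρ : ∀ z : Cn n, 0 < ‖z - a‖ ^ 2 + ε ^ 2 := fun z => by
      have := hε.1
      positivity
    have hmono : ∀ z : Cn n, z ≠ a → c * Real.log ‖z - a‖
        ≤ c / 2 * Real.log (‖z - a‖ ^ 2 + ε ^ 2) := by
      intro z hz
      have h0 : 0 < ‖z - a‖ := norm_pos_iff.mpr (sub_ne_zero.mpr hz)
      have h1 : Real.log (‖z - a‖ ^ 2) ≤ Real.log (‖z - a‖ ^ 2 + ε ^ 2) :=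
        Real.log_le_log (by positivity) (by nlinarith [sq_nonneg ε])
      rw [Real.log_pow, Nat.cast_ofNat] at h1
      nlinarith
    have hcontρ : Continuous (fun z : Cn n => Real.log (‖z - a‖ ^ 2 + ε ^ 2)) :=
      Continuous.log (by fun_prop) (fun z => (hρ z).ne')
    obtain ⟨s₀, hs₀, hs⟩ := unif_small hΩ hb hd hu
      (h := fun z => c / 2 * Real.log (‖z - a‖ ^ 2 + ε ^ 2) + (C + ε))
      ((continuous_const.mul hcontρ).add continuous_const).continuousOn (fun z hz => by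
        by_cases hza : z = a
        · rw [hza, ha0]; exact EReal.bot_lt_coe _
        · refine (hC z hz hza).trans_lt ?_
          rw [EReal.coe_lt_coe_iff]
          linarith [hmono z hza, hε.1])
    obtain ⟨s, hs1, hs2, hs3⟩ : ∃ s : ℝ, 0 < s ∧ s < s₀ ∧ s < t :=
      ⟨min s₀ t / 2, by positivity, by linarith [min_le_left s₀ t, lt_min hs₀ ht0],
        by linarith [min_le_right s₀ t, lt_min hs₀ ht0]⟩
    have hts : 2 * (n : ℝ) * (t - s) ≤ c / 2 := by
      have : 2 * (n : ℝ) * (t - s) ≤ 2 * n * t := by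
        have : t - s ≤ t := by linarith
        gcongr
      linarith
    have key := upper_bound hΩ hb hu (a := a) (c := c) (C := C + ε) (B := B) (ε := ε) hε.1
      (by rw [hB]; exact le_max_left _ _)
      (fun z hz => by
        rw [hB]
        refine le_trans ?_ (le_max_right _ _)
        have h1 := hD z hz
        have h2 : ‖z - a‖ ^ 2 + ε ^ 2 ≤ D ^ 2 + 1 := by
          have h3 : ‖z - a‖ ^ 2 ≤ D ^ 2 := by gcongr
          have h4 : ε ^ 2 ≤ 1 := by nlinarith [hε.1, hε.2]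
          linarith
        have := Real.log_le_log (hρ z) h2
        gcongr)
      (fun z hz t' ht' => by
        have hza : z ≠ a := by
          rintro rfl
          exact hz.2 (by rwa [hΩ.interior_eq])
        have h1 := hC z (frontier_subset_closure hz) hza
        rw [← hd.compat z hz t' ⟨ht'.1.le, ht'.2⟩, EReal.coe_le_coe_iff, ← hu.bdry t' ht' z hz] at h1
        linarith [hmono z hza, hε.1])
      hs1 hs3 htT (by linarith) (fun z hz => hs s ⟨hs1, hs2⟩ z hz) haK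
    rw [sub_self, norm_zero, zero_pow two_ne_zero, zero_add, Real.log_pow, Nat.cast_ofNat] at key
    have hlogε : Real.log ε ≤ 0 := Real.log_nonpos hε.1.le hε.2
    have h1 : (c - 2 * n * (t - s)) / 2 * (2 * Real.log ε) ≤ c / 2 * Real.log ε := by
      nlinarith
    have h2 : B * (t - s) ≤ |B| * T := by
      calc B * (t - s) ≤ |B| * (t - s) := by
            have := le_abs_self B
            have h3 : 0 ≤ t - s := by linarith
            gcongr
        _ ≤ |B| * T := by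
            have : t - s ≤ T := by linarith
            gcongr
    linarith [hε.2]
  -- contradiction
  obtain ⟨N, hN⟩ : ∃ N : ℝ, N = max 0 ((|B| * T + C + 1 - u (a, t)) * (2 / c) + 1) := ⟨_, rfl⟩
  have hN0 : 0 ≤ N := by rw [hN]; exact le_max_left _ _
  have hm := main (Real.exp (-N)) ⟨Real.exp_pos _, Real.exp_le_one_iff.mpr (by linarith)⟩
  rw [Real.log_exp] at hm
  have h1 : (|B| * T + C + 1 - u (a, t)) * (2 / c) + 1 ≤ N := by rw [hN]; exact le_max_right _ _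
  have h2 : c / 2 * ((|B| * T + C + 1 - u (a, t)) * (2 / c) + 1) ≤ c / 2 * N := by gcongr
  have h3 : c / 2 * ((|B| * T + C + 1 - u (a, t)) * (2 / c) + 1)
      = (|B| * T + C + 1 - u (a, t)) + c / 2 := by field_simp
  linarith

end Pool.Agent.Helper696_MA
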