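import Mathlib
import Pool.Agent.Helper696_MA.Defs

/-!
`log |z|` is plurisubharmonic on `ℂⁿ` (proved by helper176).
-/

set_option autoImplicit false

open Set Filter Topology Matrix
open scoped ContDiff ComplexOrder

noncomputable section

namespace Pool.Agent.Helper696_MA

variable {n : ℕ}

theorem P_logDist_zero : logDist (0 : Cn n) 0 = ⊥ := by
  unfold logDist
  rw [if_pos rfl]

theorem P_logDist_ne {z : Cn n} (hz : z ≠ 0) : logDist (0 : Cn n) z = ((Real.log ‖z‖ : ℝ) : EReal) := by
  unfold logDist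
  rw [if_neg hz, sub_zero]

theorem P_usc : UpperSemicontinuousOn (logDist (0 : Cn n)) univ := by
  intro x _
  by_cases hx : x = 0
  · subst hx
    intro y hy
    rw [P_logDist_zero] at hy
    rw [nhdsWithin_univ]
    induction y using EReal.rec with
    | bot => exact absurd hy (lt_irrefl _)
    | top =>
      refine Eventually.of_forall (fun z => ?_)
      show logDist (0 : Cn n) z < ⊤
      by_cases hz : z = 0
      · rw [hz, P_logDist_zero]; exact bot_lt_top
      · rw [P_logDist_ne hz]; exact EReal.coe_lt_top _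
    | coe r =>
      have h1 : ∀ᶠ z : Cn n in 𝓝 0, ‖z‖ < Real.exp r := by
        have h2 : Tendsto (fun z : Cn n => ‖z‖) (𝓝 0) (𝓝 0) := by
          have := (continuous_norm (E := Cn n)).tendsto 0
          rwa [norm_zero] at this
        exact h2.eventually_lt_const (Real.exp_pos r)
      filter_upwards [h1] with z hz
      by_cases hz0 : z = 0
      · rw [hz0, P_logDist_zero]; exact hy
      · rw [P_logDist_ne hz0, EReal.coe_lt_coe_iff]
        exact (Real.log_lt_iff_lt_exp (norm_pos_iff.2 hz0)).2 hz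
  · apply ContinuousWithinAt.upperSemicontinuousWithinAt
    apply ContinuousAt.continuousWithinAt
    have h1 : (fun z : Cn n => ((Real.log ‖z‖ : ℝ) : EReal)) =ᶠ[𝓝 x] logDist (0 : Cn n) := by
      have h2 : ∀ᶠ z : Cn n in 𝓝 x, z ≠ 0 := isOpen_ne.eventually_mem hx
      filter_upwards [h2] with z hz
      rw [P_logDist_ne hz]
    have h3 : ContinuousAt (fun z : Cn n => ((Real.log ‖z‖ : ℝ) : EReal)) x := by
      apply continuous_coe_real_ereal.continuousAt.comp
      apply ContinuousAt.log continuous_norm.continuousAt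
      exact norm_ne_zero_iff.2 hx
    exact h3.congr h1

theorem P_mean_aux (r : ℝ) (hr : 0 < r) (b : ℂ) (g : ℂ → ℝ) (hg : Continuous g)
    (h : ∀ ζ : ℂ, ‖ζ‖ = 1 → (r : ℂ) + ζ * b ≠ 0 → Real.log ‖(r : ℂ) + ζ * b‖ ≤ g ζ) :
    Real.log r ≤ Real.circleAverage g 0 1 := by
  have hgi : CircleIntegrable g 0 1 := hg.continuousOn.circleIntegrable zero_le_one
  by_cases hb : b = 0
  · subst hb
    rw [← Real.circleAverage_const (Real.log r) 0 1]
    apply Real.circleAverage_mono (circleIntegrable_const _ _ _) hgi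
    intro ζ hζ
    rw [abs_one, mem_sphere_zero_iff_norm] at hζ
    have h1 := h ζ hζ (by simpa using hr.ne')
    simpa [abs_of_pos hr] using h1
  · obtain ⟨a, ha⟩ : ∃ a : ℂ, a = (r : ℂ) / b := ⟨_, rfl⟩
    have hbn : 0 < ‖b‖ := norm_pos_iff.2 hb
    have hsum : ∀ ζ : ℂ, (r : ℂ) + ζ * b = b * (ζ + a) := by
      intro ζ
      rw [ha]
      field_simp
      ring
    have hi1 : CircleIntegrable (fun ζ : ℂ => Real.log ‖ζ + a‖) 0 1 := by
      have h1 := circleIntegrable_log_norm_sub_const (a := -a) (c := 0) 1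
      simpa using h1
    obtain ⟨F, hF⟩ : ∃ F : ℂ → ℝ, F = fun ζ => Real.log ‖b‖ + Real.log ‖ζ + a‖ := ⟨_, rfl⟩
    have hFi : CircleIntegrable F 0 1 := by
      rw [hF]
      exact (circleIntegrable_const _ _ _).add hi1
    have hFa : Real.circleAverage F 0 1 = Real.log ‖b‖ + Real.posLog ‖a‖ := by
      rw [hF]
      have h1 := Real.circleAverage_add (circleIntegrable_const (Real.log ‖b‖) 0 1) hi1
      have h2 : ((fun _ : ℂ => Real.log ‖b‖) + fun ζ : ℂ => Real.log ‖ζ + a‖) =
          fun ζ : ℂ => Real.log ‖b‖ + Real.log ‖ζ + a‖ := rfl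
      rw [h2] at h1
      rw [h1, Real.circleAverage_const, circleAverage_log_norm_add_const_eq_posLog]
    obtain ⟨G, hG⟩ : ∃ G : ℂ → ℝ, G = Function.update g (-a) (F (-a)) := ⟨_, rfl⟩
    have hGg : G =ᶠ[codiscreteWithin (Metric.sphere (0 : ℂ) |(1 : ℝ)|)] g := by
      have h1 : ({-a}ᶜ : Set ℂ) ∈ codiscreteWithin (Metric.sphere (0 : ℂ) |(1 : ℝ)|) :=
        compl_singleton_mem_codiscreteWithin _
      filter_upwards [h1] with ζ hζ
      rw [hG]
      exact Function.update_of_ne hζ _ _
    have hGi : CircleIntegrable G 0 1 := hgi.congr_codiscreteWithin hGg.symm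
    have h2 : Real.circleAverage F 0 1 ≤ Real.circleAverage G 0 1 := by
      apply Real.circleAverage_mono hFi hGi
      intro ζ hζ
      rw [abs_one, mem_sphere_zero_iff_norm] at hζ
      by_cases hza : ζ = -a
      · rw [hG, hza, Function.update_self]
      · have h3 : ζ + a ≠ 0 := by
          intro h0
          exact hza (eq_neg_of_add_eq_zero_left h0)
        have h4 := h ζ hζ (by rw [hsum]; exact mul_ne_zero hb h3)
        rw [hsum, norm_mul, Real.log_mul (norm_ne_zero_iff.2 hb) (norm_ne_zero_iff.2 h3)] at h4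
        rw [hG, Function.update_of_ne hza, hF]
        exact h4
    rw [Real.circleAverage_congr_codiscreteWithin hGg one_ne_zero, hFa] at h2
    refine le_trans ?_ h2
    have h5 : Real.log r = Real.log ‖b‖ + Real.log ‖a‖ := by
      rw [ha, norm_div, Real.log_div, Complex.norm_real, Real.norm_eq_abs, abs_of_pos hr]
      · ring
      · rw [Complex.norm_real, Real.norm_eq_abs, abs_of_pos hr]
        exact hr.ne'
      · exact hbn.ne'
    rw [h5]
    have h6 : Real.log ‖a‖ ≤ Real.posLog ‖a‖ := le_max_right _ _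
    linarith

theorem isPSH_logDist : IsPSH (univ : Set (Cn n)) (logDist (0 : Cn n)) := by
  refine ⟨isOpen_univ, ?_, P_usc, ?_⟩
  · intro z _
    by_cases hz : z = 0
    · rw [hz, P_logDist_zero]; exact bot_lt_top
    · rw [P_logDist_ne hz]; exact EReal.coe_lt_top _
  · intro z w _ g hg hle
    by_cases hz : z = 0
    · rw [hz, P_logDist_zero]; exact bot_le
    · rw [P_logDist_ne hz, EReal.coe_le_coe_iff]
      have hzn : 0 < ‖z‖ := norm_pos_iff.2 hz
      apply P_mean_aux ‖z‖ hzn (inner ℂ z w / (‖z‖ : ℂ)) g hg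
      intro ζ hζ hne
      have hkey : ‖(‖z‖ : ℂ) + ζ * (inner ℂ z w / (‖z‖ : ℂ))‖ ≤ ‖z + ζ • w‖ := by
        have h1 : inner ℂ z (z + ζ • w) = (‖z‖ : ℂ) * ((‖z‖ : ℂ) + ζ * (inner ℂ z w / (‖z‖ : ℂ))) := by
          rw [inner_add_right, inner_smul_right, inner_self_eq_norm_sq_to_K]
          have h2 : (‖z‖ : ℂ) ≠ 0 := by exact_mod_cast hzn.ne'
          have h3 : ((‖z‖ : ℝ) : ℂ) = (‖z‖ : ℂ) := rfl
          field_simp
          rfl
        have h4 := norm_inner_le_norm (𝕜 := ℂ) z (z + ζ • w)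
        rw [h1, norm_mul, Complex.norm_real, Real.norm_eq_abs, abs_of_pos hzn] at h4
        exact le_of_mul_le_mul_left h4 hzn
      have hpos : 0 < ‖(‖z‖ : ℂ) + ζ * (inner ℂ z w / (‖z‖ : ℂ))‖ := norm_pos_iff.2 hne
      have hne2 : z + ζ • w ≠ 0 := by
        intro h0
        rw [h0, norm_zero] at hkey
        linarith
      have h5 := hle ζ hζ
      rw [P_logDist_ne hne2, EReal.coe_le_coe_iff] at h5
      exact (Real.log_le_log hpos hkey).trans h5

end Pool.Agent.Helper696_MA
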